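import Pool.Agent.H68.L1.Ker

/-! Kernel computation. -/

set_option autoImplicit false
set_option maxRecDepth 100000

namespace Pool.Agent.H68.L1

theorem cb8 : ckb 16 128 = true := by decide +kernel
theorem cb9 : ckb 16 144 = true := by decide +kernel
theorem cb10 : ckb 16 160 = true := by decide +kernel
theorem cb11 : ckb 16 176 = true := by decide +kernel
theorem cb12 : ckb 16 192 = true := by decide +kernel
theorem cb13 : ckb 16 208 = true := by decide +kernel
theorem cb14 : ckb 16 224 = true := by decide +kernel
theorem cb15 : ckb 16 240 = true := by decide +kernel

end Pool.Agent.H68.L1
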