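import Pool.Agent.H68.L1.Ker

/-! Kernel computation. -/

set_option autoImplicit false
set_option maxRecDepth 100000
set_option maxHeartbeats 4000000

namespace Pool.Agent.H68.L1

/-- representatives -/
def g3 : List (List ℕ) := [[970916, 970915, 970914], [970912, 970881, 970880], [970752, 969982, 969980], [969976, 969974, 969972], [969968, 969963, 969962], [969961, 969960, 969958], [969956, 969955, 969954], [969953, 969952, 969929], [969928, 969927, 969926], [969925, 969924, 969921], [969920, 969910, 969908], [969905, 969904, 969892], [969891, 969890, 969889], [969888, 969857, 969856], [969848, 969846, 969844], [969840, 969835, 969834], [969833, 969832, 969830], [969828, 969827, 969826], [969825, 969824, 969801], [969800, 969799, 969798], [969797, 969796, 969793], [969792, 969782, 969780], [969777, 969776, 969764], [969763, 969762, 969761], [969760, 969729, 969728], [968938, 968936, 968934], [968932, 968931, 968930], [968929, 968928, 968922], [968921, 968920, 968919], [968918, 968917, 968916]]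

theorem kk3 : ∀ l ∈ g3, chkl l = true := by
  simp only [g3, List.forall_mem_cons, List.not_mem_nil, false_implies, implies_true, and_true]
  exact ⟨by decide +kernel, by decide +kernel, by decide +kernel, by decide +kernel, by decide +kernel, by decide +kernel, by decide +kernel, by decide +kernel, by decide +kernel, by decide +kernel, by decide +kernel, by decide +kernel, by decide +kernel, by decide +kernel, by decide +kernel, by decide +kernel, by decide +kernel, by decide +kernel, by decide +kernel, by decide +kernel, by decide +kernel, by decide +kernel, by decide +kernel, by decide +kernel, by decide +kernel, by decide +kernel, by decide +kernel, by decide +kernel, by decide +kernel, by decide +kernel⟩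

end Pool.Agent.H68.L1
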