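import Pool.Agent.H68.L1.K7
import Pool.Agent.H68.L1.K8
import Pool.Agent.H68.L1.K9
import Pool.Agent.H68.L1.K10
import Pool.Agent.H68.L1.CAll

/-! The certificate and the bound. -/

set_option autoImplicit false
set_option maxRecDepth 100000
set_option maxHeartbeats 4000000
set_option exponentiation.threshold 3000000
open Finset

namespace Pool.Agent.H68.L1

noncomputable section

open Pool.Agent.N443 (st_eq cnd_and cov)
open Pool.Agent.H68.F7 (CQ WL)
open Pool.Agent.H68.F7 (Free)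

/-- the codes of representatives -/
def reps : List ℕ := (g0 ++ g1 ++ g2 ++ g3 ++ g4 ++ g5 ++ g6 ++ g7 ++ g8 ++ g9 ++ g10).flatten

theorem chkl_mem {l : List ℕ} (h : chkl l = true) : ∀ c ∈ l, ck c = true := by
  induction l with
  | nil => intro c hc; exact absurd hc List.not_mem_nil
  | cons a l ih =>
    obtain ⟨h1, h2⟩ := cnd_and (show Pool.Agent.Y435.T7.cnd (Pool.Agent.Y435.T7.st ck a) (chkl l) false = true from h)
    rw [st_eq] at h1
    intro c hc
    rcases List.mem_cons.mp hc with rfl | hc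
    · exact h1
    · exact ih h2 c hc

theorem k_all : ∀ c ∈ reps, ck c = true := by
  intro c hc
  obtain ⟨l, hl, hcl⟩ := List.mem_flatten.mp hc
  refine chkl_mem ?_ c hcl
  simp only [List.mem_append] at hl
  rcases hl with (((((((((hl | hl) | hl) | hl) | hl) | hl) | hl) | hl) | hl) | hl) | hl
  · exact kk0 l hl
  · exact kk1 l hl
  · exact kk2 l hl
  · exact kk3 l hl
  · exact kk4 l hl
  · exact kk5 l hl
  · exact kk6 l hl
  · exact kk7 l hl
  · exact kk8 l hl
  · exact kk9 l hl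
  · exact kk10 l hl

/-- complete sets of six positions -/
def BP : List (List ℕ × Finset (Fin 7)) := [([0, 1, 2, 3], {0, 1, 2, 3}), ([0, 4, 5, 6], {0, 1, 2, 4}), ([0, 10, 11, 12], {0, 1, 2, 5}), ([1, 4, 7, 8], {0, 1, 3, 4}), ([1, 10, 13, 14], {0, 1, 3, 5}), ([4, 10, 16, 17], {0, 1, 4, 5}), ([2, 5, 7, 9], {0, 2, 3, 4}), ([2, 11, 13, 15], {0, 2, 3, 5}), ([5, 11, 16, 18], {0, 2, 4, 5}), ([7, 13, 16, 19], {0, 3, 4, 5}), ([3, 6, 8, 9], {1, 2, 3, 4}), ([3, 12, 14, 15], {1, 2, 3, 5}), ([6, 12, 17, 18], {1, 2, 4, 5}), ([8, 14, 17, 19], {1, 3, 4, 5}), ([9, 15, 18, 19], {2, 3, 4, 5})]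
theorem cov_ok : cov 20 reps WL (BP.map Prod.fst) = true := by decide +kernel
theorem reps_lt : ∀ c ∈ reps, c < 2 ^ 20 := by
  have h : reps.all (fun c => Nat.blt c 1048576) = true := by decide +kernel
  intro c hc
  exact Nat.le_of_ble_eq_true (List.all_eq_true.mp h c hc)
theorem BP_ok : ∀ x ∈ BP, x.2.card = 4 ∧ ∀ Q ∈ powersetCard 3 x.2, ∃ i ∈ x.1, i < 20 ∧ CQ.getD i ∅ = Q := by decide +kernel

theorem cert : F9.Cert 4 (F7.F5 BL GK iv) (F7.F3 TG G3) (fun m => 2 * GK m) (fun m f k => (F7.uu BL m f k : ℤ) - of m k)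
    (fun b => 2 * G3 b) (fun b f k => (F7.vu TG b f k : ℤ) - of3 b k) (fun _ => 0) (fun _ => F9.q5 QQ) cC B5 B3 :=
  F9.cert_of tb5 tb3 reps BP cov_ok reps_lt BP_ok (by unfold DM; norm_num) (by unfold DM3; norm_num)
    (by unfold DM DM3 cC; norm_num) (by unfold cC; norm_num) k_all

variable {V : Type} [Fintype V] [DecidableEq V]

theorem main {H : Finset V → Prop} (h : Free 4 H) (hn : 0 < Fintype.card V) :
    45 * Pool.Agent.H122R2.N6.T2 (F9.E3 H) (fun k => 14 * (QQ k : ℤ)) ≤ 34020000000 * (Fintype.card V : ℤ) ^ 6 := by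
  have h1 := F9.codeg QQ cert h hn
  have e : (3 * ((cC : ℤ) - 21 * B5 - 105 * B3)) = 34020000000 := by unfold cC B5 B3; norm_num
  rwa [e] at h1

theorem QQ_val : QQ 0 = 7680000 ∧ QQ 1 = 20370000 ∧ QQ 2 = 49278000 ∧ QQ 3 = 70590000 ∧ QQ 4 = 102288000 := by decide +kernel

end

end Pool.Agent.H68.L1
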